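import Pool.Agent.Lib.MP_b5021c_nt.IfaceEV
import Pool.Agent.Lib.MP_b5021c_nt.B.H42.Bst

/-!
# Row EV_BST: the two best loads
-/

set_option autoImplicit false

namespace Pool.Agent.B5.H23

open scoped LaurentPolynomial
open Polynomial
open Pool.Agent.MP_b5021c_nt (Eis)
open Pool.Agent.MP_b5021c_nt
open Pool.Agent.B5.H40 (uT)

/-- `Cone60` in terms of the real part. -/
lemma cone60_of {al de : Eis}
    (h : 1 / 2 * (‖Eis.emb al‖ * ‖Eis.emb de‖) ≤
      ((starRingEnd ℂ) (Eis.emb al) * Eis.emb de).re) : Cone60 al de := by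
  have h0 : ((al.norm : ℝ) + (de.norm : ℝ) - ((al - de).norm : ℝ)) =
      2 * ((starRingEnd ℂ) (Eis.emb al) * Eis.emb de).re := by
    rw [← Eis.normSq_emb, ← Eis.normSq_emb, ← Eis.normSq_emb, map_sub,
      ← Complex.normSq_eq_norm_sq, ← Complex.normSq_eq_norm_sq, ← Complex.normSq_eq_norm_sq,
      Complex.normSq_apply, Complex.normSq_apply, Complex.normSq_apply]
    simp only [Complex.sub_re, Complex.sub_im, Complex.mul_re, Complex.conj_re, Complex.conj_im]
    ring
  have hp : 0 ≤ ‖Eis.emb al‖ * ‖Eis.emb de‖ := by positivity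
  constructor
  · have h1 : (0 : ℝ) ≤ (al.norm : ℝ) + (de.norm : ℝ) - ((al - de).norm : ℝ) := by
      rw [h0]; linarith
    exact_mod_cast h1
  · have h1 : ((al.norm : ℝ) * (de.norm : ℝ)) ≤
        ((al.norm : ℝ) + (de.norm : ℝ) - ((al - de).norm : ℝ)) ^ 2 := by
      rw [h0, ← Eis.normSq_emb, ← Eis.normSq_emb, ← mul_pow]
      apply pow_le_pow_left₀ hp
      linarith
    exact_mod_cast h1

/-- (EV_BST) the two best loads. -/
theorem evb (hB : BstS) : EvbS := by
  intro al m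
  set y : ℂ := (starRingEnd ℂ) (Eis.emb al) * (-Eis.emb m) with hy
  obtain ⟨u, v, w, hu, hv, huv, hw1, hw2, hu3, hv3⟩ := hB y
  have hyn : ∀ x : Eis, IsUnit x → ‖y‖ = ‖Eis.emb al‖ * ‖Eis.emb (-(x * m))‖ := by
    intro x hx
    rw [hy, norm_mul, norm_neg, map_neg, norm_neg, map_mul, norm_mul, Eis.norm_emb_unit hx,
      one_mul, RCLike.norm_conj]
  have hre : ∀ x : Eis, ((starRingEnd ℂ) (Eis.emb al) * Eis.emb (-(x * m))).re =
      (Eis.emb x * y).re := by
    intro x
    congr 1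
    rw [hy, map_neg, map_mul]
    ring
  have hs : (1 : ℝ) / 2 ≤ Real.sqrt 3 / 2 := by
    have : (1 : ℝ) ≤ Real.sqrt 3 := by rw [Real.one_le_sqrt]; norm_num
    linarith
  refine ⟨hu.unit, hv.unit, ?_, ?_⟩
  · intro k
    refine ⟨w, ?_, hw1, hw2⟩
    show LaurentPolynomial.C u * LaurentPolynomial.T k =
      LaurentPolynomial.C w * (LaurentPolynomial.C v * LaurentPolynomial.T k)
    rw [huv, map_mul, mul_assoc]
  · rintro x (rfl | rfl)
    · apply cone60_of
      show _ ≤ ((starRingEnd ℂ) (Eis.emb al) * Eis.emb (-(u * m))).re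
      rw [hre, IsUnit.unit_spec, ← hyn u hu]
      exact le_trans (mul_le_mul_of_nonneg_right hs (norm_nonneg _)) hu3
    · apply cone60_of
      show _ ≤ ((starRingEnd ℂ) (Eis.emb al) * Eis.emb (-(v * m))).re
      rw [hre, IsUnit.unit_spec, ← hyn v hv]
      exact hv3

end Pool.Agent.B5.H23
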