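import Pool.Agent.Lib.MP_b5021c_nt.IfaceE3

/-!
Row E3_DB (board b5, chapter E3): a zero on the circle of a function which is real and
nonnegative there is double.
-/

namespace Pool.Agent.B5

open Polynomial

theorem db3 : Db3S := by
  intro a b n z0 hz0 hpos hb0 ha0
  have hz0' : z0 ≠ 0 := by
    intro h
    rw [h, norm_zero] at hz0
    exact zero_ne_one hz0
  -- the path
  set p : ℝ → ℂ := fun t => z0 * Complex.exp (t * Complex.I) with hp
  have hp0 : p 0 = z0 := by simp [hp]
  have hpn : ∀ t, ‖p t‖ = 1 := by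
    intro t
    rw [hp]
    simp only [norm_mul, hz0, one_mul]
    exact Complex.norm_exp_ofReal_mul_I t
  have hpd : HasDerivAt p (z0 * Complex.I) 0 := by
    have h1 : HasDerivAt (fun t : ℝ => (t : ℂ) * Complex.I) (1 * Complex.I) 0 :=
      (Complex.ofRealCLM.hasDerivAt (x := (0 : ℝ))).mul_const Complex.I
    have h2 := (h1.cexp).const_mul z0
    simpa [hp] using h2
  have hpne : p 0 ≠ 0 := by rw [hp0]; exact hz0'
  -- the pieces
  have hA : HasDerivAt (fun t => a.eval (p t)) (a.derivative.eval z0 * (z0 * Complex.I)) 0 := by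
    have h := (a.hasDerivAt (p 0)).comp (0 : ℝ) hpd
    rw [hp0] at h
    exact h
  have hB : HasDerivAt (fun t => b.eval (p t)) (b.derivative.eval z0 * (z0 * Complex.I)) 0 := by
    have h := (b.hasDerivAt (p 0)).comp (0 : ℝ) hpd
    rw [hp0] at h
    exact h
  have hBc : HasDerivAt (fun t => (starRingEnd ℂ) (b.eval (p t)))
      ((starRingEnd ℂ) (b.derivative.eval z0 * (z0 * Complex.I))) 0 := hB.star
  have hZ : HasDerivAt (fun t => p t ^ n) ((n : ℂ) * z0 ^ (n - 1) * (z0 * Complex.I)) 0 := by
    have h := (hasDerivAt_zpow n (p 0) (Or.inl hpne)).comp (0 : ℝ) hpd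
    rw [hp0] at h
    exact h
  have hF := (hA.mul hBc).mul hZ
  set F : ℝ → ℂ := fun t => a.eval (p t) * (starRingEnd ℂ) (b.eval (p t)) * p t ^ n with hFdef
  have hF' : HasDerivAt F (a.eval z0 * (starRingEnd ℂ) (b.derivative.eval z0 * (z0 * Complex.I)) *
      z0 ^ n) 0 := by
    refine hF.congr_deriv ?_
    simp only [hp0, hb0, map_zero, mul_zero, zero_add, Pi.mul_apply, zero_mul, add_zero]
  have hF0 : F 0 = 0 := by
    simp only [hFdef, hp0, hb0, map_zero, mul_zero, zero_mul]
  -- real part
  have hre : HasDerivAt (fun t => (F t).re) (a.eval z0 *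
      (starRingEnd ℂ) (b.derivative.eval z0 * (z0 * Complex.I)) * z0 ^ n).re 0 := by
    exact Complex.reCLM.hasFDerivAt.comp_hasDerivAt (0 : ℝ) hF'
  have him : HasDerivAt (fun t => (F t).im) (a.eval z0 *
      (starRingEnd ℂ) (b.derivative.eval z0 * (z0 * Complex.I)) * z0 ^ n).im 0 := by
    exact Complex.imCLM.hasFDerivAt.comp_hasDerivAt (0 : ℝ) hF'
  have him0 : (fun t => (F t).im) = fun _ => (0 : ℝ) := by
    funext t
    exact (hpos (p t) (hpn t)).1
  have hi : (a.eval z0 *
      (starRingEnd ℂ) (b.derivative.eval z0 * (z0 * Complex.I)) * z0 ^ n).im = 0 := by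
    rw [him0] at him
    exact him.unique (hasDerivAt_const _ _)
  have hr : (a.eval z0 *
      (starRingEnd ℂ) (b.derivative.eval z0 * (z0 * Complex.I)) * z0 ^ n).re = 0 := by
    have hmin : IsLocalMin (fun t => (F t).re) 0 := by
      refine Filter.Eventually.of_forall fun t => ?_
      show (F 0).re ≤ (F t).re
      rw [hF0]
      exact (hpos (p t) (hpn t)).2
    exact hmin.hasDerivAt_eq_zero hre
  have hz : a.eval z0 * (starRingEnd ℂ) (b.derivative.eval z0 * (z0 * Complex.I)) * z0 ^ n = 0 :=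
    Complex.ext hr hi
  have hd : b.derivative.eval z0 = 0 := by
    rcases mul_eq_zero.mp hz with h | h
    · rcases mul_eq_zero.mp h with h | h
      · exact absurd h ha0
      · have h2 : b.derivative.eval z0 * (z0 * Complex.I) = 0 := by
          simpa using h
        rcases mul_eq_zero.mp h2 with h | h
        · exact h
        · exact absurd h (mul_ne_zero hz0' Complex.I_ne_zero)
    · exact absurd h (zpow_ne_zero _ hz0')
  obtain ⟨c, hc⟩ := dvd_iff_isRoot.mpr (show b.IsRoot z0 from hb0)
  have hc0 : c.eval z0 = 0 := by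
    rw [hc] at hd
    simpa [derivative_mul] using hd
  obtain ⟨c', hc'⟩ := dvd_iff_isRoot.mpr (show c.IsRoot z0 from hc0)
  exact ⟨c', by rw [hc, hc']; ring⟩

end Pool.Agent.B5
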