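import Pool.Agent.Lib.MP_b5021c_nt.IfaceE6

/-!
# Row E6_NRL: the numerical rule for one step
-/

set_option autoImplicit false

namespace Pool.Agent.B5.H23

/-- The common part: `log (θ / x) ≤ (θ - x) / x`, and `2 / θ ≤ 2 / x`. -/
lemma nrl_aux {θ x : ℝ} (hx0 : 0 < x) (hxθ : x ≤ θ) :
    Real.log (θ / x) / 100 + 2 / θ - 2 / x ≤ (θ - x) / (100 * x) := by
  have hθ : 0 < θ := lt_of_lt_of_le hx0 hxθ
  have h1 := Real.log_le_sub_one_of_pos (div_pos hθ hx0)
  have h2 : θ / x - 1 = (θ - x) / x := by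
    field_simp
  have h3 : 2 / θ ≤ 2 / x := div_le_div_of_nonneg_left (by norm_num) hx0 hxθ
  have h4 : (θ - x) / (100 * x) = (θ - x) / x / 100 := by
    field_simp
  rw [h4]
  rw [h2] at h1
  linarith

/-- (E6_NRL) the numerical rule for one step. -/
theorem nrl : NrlS := by
  intro θ E x K hθ hE hx
  have hx1 : (10 : ℝ) ^ 11 ≤ x := by
    have : (10 : ℝ) ^ 12 / 3 ≤ x := by linarith
    have h2 : (10 : ℝ) ^ 11 ≤ (10 : ℝ) ^ 12 / 3 := by norm_num
    linarith
  have hx0 : 0 < x := lt_of_lt_of_le (by norm_num) hx1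
  have hθ0 : 0 < θ := lt_of_lt_of_le (by norm_num) hθ
  -- a crude bound for the error term
  have hcr : x ≤ θ → (θ - x) / (100 * x) ≤ (θ - x) / 1000 := by
    intro h
    apply div_le_div_of_nonneg_left (by linarith) (by norm_num)
    nlinarith
  refine ⟨fun h1 h2 => ?_, fun h1 h2 => ?_, fun h1 h2 => ?_⟩
  · have hxθ : x ≤ θ := by linarith
    have a1 := nrl_aux hx0 hxθ
    have a2 := hcr hxθ
    have e1 : 2 * (x - 1 / x) = 2 * x - 2 / x := by ring
    have e2 : 2 * (θ - 1 / θ) = 2 * θ - 2 / θ := by ring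
    rw [e1] at h2
    rw [e2]
    linarith
  · have hp : 0 < 1 / (150 * θ) := by positivity
    have hxθ : x ≤ θ := by linarith
    have a1 := nrl_aux hx0 hxθ
    have e1 : 2 * (x - 1 / x) = 2 * x - 2 / x := by ring
    have e2 : 2 * (θ - 1 / θ) = 2 * θ - 2 / θ := by ring
    rw [e1] at h2
    rw [e2]
    have key : (θ - x) / (100 * x) ≤ 2 * (θ - x) - 2 := by
      rcases le_total (θ - x) 2 with hd | hd
      · -- `x` is close to `θ`
        have hx9 : 9 / 10 * θ ≤ x := by linarith
        have b1 : (θ - x) / (100 * x) ≤ (θ - x) / (90 * θ) := by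
          apply div_le_div_of_nonneg_left (by linarith) (by positivity)
          linarith
        have b2 : (θ - x) / (90 * θ) ≤ 2 * (θ - x) - 2 := by
          rw [div_le_iff₀ (by positivity)]
          have hq : 1 / (150 * θ) * θ = 1 / 150 := by field_simp
          have h3 : (1 + 1 / (150 * θ)) * θ ≤ (θ - x) * θ :=
            mul_le_mul_of_nonneg_right (by linarith) hθ0.le
          have h4 : θ + 1 / 150 ≤ (θ - x) * θ := by
            rw [add_mul, hq, one_mul] at h3
            exact h3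
          nlinarith
        linarith
      · have a2 := hcr hxθ
        linarith
    linarith
  · have hxθ : x ≤ θ := by linarith
    have a1 := nrl_aux hx0 hxθ
    have a2 := hcr hxθ
    have e1 : 2 * (x - 1 / x) = 2 * x - 2 / x := by ring
    have e2 : 2 * (θ - 1 / θ) = 2 * θ - 2 / θ := by ring
    rw [e1] at h2
    rw [e2]
    linarith

end Pool.Agent.B5.H23
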